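import Pool.Agent.H11.LD.Targets

/-!
# Row LBE of the board `ldm_modules` (MP_c4ad93_co, Q2)
-/

set_option autoImplicit false

open Finset Classical

namespace Pool.Agent.H35.LD

open Pool.Agent.H11.LD Pool.Agent.H9.Lap

variable {V : Type} [Fintype V]

theorem qf_ge (G : SimpleGraph V) (f : V → ℝ) (W : Finset (V × V))
    (hW : ∀ q ∈ W, G.Adj q.1 q.2) (hs : ∀ q ∈ W, q.swap ∉ W) :
    ∑ q ∈ W, (f q.1 - f q.2) ^ 2 ≤ qf G f := by
  have h1 : ∑ v, ∑ w ∈ nb G v, (f v - f w) ^ 2 =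
      ∑ q ∈ univ.filter (fun q : V × V => G.Adj q.1 q.2), (f q.1 - f q.2) ^ 2 := by
    rw [Finset.sum_filter, Fintype.sum_prod_type]
    refine Finset.sum_congr rfl fun v _ => ?_
    unfold nb
    rw [Finset.sum_filter]
  have h2 : Disjoint W (W.map (Equiv.prodComm V V).toEmbedding) := by
    rw [Finset.disjoint_left]
    intro q hq hq'
    rw [Finset.mem_map] at hq'
    obtain ⟨q', hq', e⟩ := hq'
    have : q.swap ∈ W := by
      rw [← e]
      exact hq'
    exact hs q hq this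
  have h3 : ∑ q ∈ W.map (Equiv.prodComm V V).toEmbedding, (f q.1 - f q.2) ^ 2 =
      ∑ q ∈ W, (f q.1 - f q.2) ^ 2 := by
    rw [Finset.sum_map]
    refine Finset.sum_congr rfl fun q _ => ?_
    show (f q.2 - f q.1) ^ 2 = _
    ring
  have h4 : W ∪ W.map (Equiv.prodComm V V).toEmbedding ⊆
      univ.filter (fun q : V × V => G.Adj q.1 q.2) := by
    intro q hq
    rw [Finset.mem_union, Finset.mem_map] at hq
    rw [Finset.mem_filter]
    refine ⟨Finset.mem_univ _, ?_⟩
    rcases hq with hq | ⟨q', hq', e⟩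
    · exact hW q hq
    · rw [← e]; exact (hW q' hq').symm
  have h5 := Finset.sum_le_sum_of_subset_of_nonneg
    (f := fun q : V × V => (f q.1 - f q.2) ^ 2) h4 (fun q _ _ => sq_nonneg _)
  rw [Finset.sum_union h2, h3] at h5
  unfold qf
  rw [h1]
  linarith

/-- the leaves -/
noncomputable def lv {g : ℕ} (p : V → Fin g) (c : Fin g → V) : Finset V :=
  univ.filter fun a => a ≠ c (p a)

theorem mem_lv {g : ℕ} {p : V → Fin g} {c : Fin g → V} {a : V} : a ∈ lv p c ↔ a ≠ c (p a) := by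
  unfold lv
  rw [Finset.mem_filter]
  exact ⟨fun h => h.2, fun h => ⟨Finset.mem_univ _, h⟩⟩

theorem sum_leaf {G : SimpleGraph V} {g m : ℕ} {p : V → Fin g} {c : Fin g → V}
    (hC : Clu G g m p c) (F : V → ℝ) :
    ∑ v, F v = ∑ i, F (c i) + ∑ a ∈ lv p c, F a := by
  have h1 : univ.filter (fun a => a = c (p a)) = univ.image c := by
    ext a
    rw [Finset.mem_filter, Finset.mem_image]
    constructor
    · rintro ⟨_, h⟩
      exact ⟨p a, Finset.mem_univ _, h.symm⟩
    · rintro ⟨i, _, rfl⟩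
      exact ⟨Finset.mem_univ _, by rw [hC.pc]⟩
  have h2 : Function.Injective c := by
    intro i j hij
    rw [← hC.pc i, hij, hC.pc]
  have h3 : ∑ a ∈ univ.filter (fun a => a = c (p a)), F a = ∑ i, F (c i) := by
    rw [h1, Finset.sum_image (fun x _ y _ h => h2 h)]
  rw [← h3]
  unfold lv
  exact (Finset.sum_filter_add_sum_filter_not univ (fun a => a = c (p a)) F).symm

theorem sum_p {G : SimpleGraph V} {g m : ℕ} {p : V → Fin g} {c : Fin g → V}
    (hC : Clu G g m p c) (B : Fin g → ℝ) :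
    ∑ a ∈ lv p c, B (p a) = ((m : ℝ) - 1) * ∑ i, B i := by
  have h1 := sum_leaf hC (fun v => B (p v))
  have h2 : ∑ v, B (p v) = (m : ℝ) * ∑ i, B i := by
    rw [← Finset.sum_fiberwise (s := univ) (g := p) (f := fun v => B (p v)), Finset.mul_sum]
    refine Finset.sum_congr rfl fun i _ => ?_
    have h3 : ∑ v ∈ univ.filter (fun v => p v = i), B (p v) =
        ∑ v ∈ univ.filter (fun v => p v = i), B i :=
      Finset.sum_congr rfl fun v hv => by rw [(Finset.mem_filter.1 hv).2]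
    rw [h3, Finset.sum_const, hC.card, nsmul_eq_mul]
  have h4 : ∑ i, B (p (c i)) = ∑ i, B i :=
    Finset.sum_congr rfl fun i _ => by rw [hC.pc]
  simp only [] at h1
  rw [h2, h4] at h1
  linarith

/-- the test function -/
noncomputable def tf {g : ℕ} (p : V → Fin g) (c : Fin g → V) (A s : Fin g → ℝ) (μ : ℝ)
    (r : V → ℝ) (v : V) : ℝ :=
  if v = c (p v) then (μ - 1) * s (p v) * A (p v) else -(s (p v) * (A (p v) + r v))

theorem gen {G : SimpleGraph V} {g m : ℕ} {p : V → Fin g} {c : Fin g → V}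
    {E : Finset (V × V)} {A s : Fin g → ℝ} {μ : ℝ} (hC : Clu G g m p c) (hS : Sys G p E A s)
    (hμ : 1 ≤ μ) (hU : Ub G μ) (r : V → ℝ) (X : Finset (V × V))
    (hX : ∀ q ∈ X, G.Adj q.1 q.2 ∧ q.1 ≠ c (p q.1) ∧ q.2 ≠ c (p q.2) ∧ q ∉ E ∧ q.swap ∉ E ∧
      q.swap ∉ X) :
    ∑ e ∈ E, (wt p A e + r e.1 + r e.2) ^ 2 +
      ∑ q ∈ X, (s (p q.1) * (A (p q.1) + r q.1) - s (p q.2) * (A (p q.2) + r q.2)) ^ 2 ≤
      μ * (μ - 1) * (μ - m) * ∑ i, A i ^ 2 + (μ - 1) * ∑ a, r a ^ 2 := by
  set f := tf p c A s μ r with hf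
  have fc : ∀ i, f (c i) = (μ - 1) * s i * A i := by
    intro i
    rw [hf]
    unfold tf
    rw [hC.pc, if_pos rfl]
  have fl : ∀ a, a ≠ c (p a) → f a = -(s (p a) * (A (p a) + r a)) := by
    intro a ha
    rw [hf]
    unfold tf
    rw [if_neg ha]
  have ss : ∀ i, s i ^ 2 = 1 := by
    intro i
    rcases hS.sg i with h | h <;> rw [h] <;> norm_num
  have pE : ∀ e ∈ E, p e.1 ≠ p e.2 := by
    intro e he h
    have h1 := hS.alt e he
    rw [h] at h1
    have h2 := ss (p e.2)
    have h3 : s (p e.2) = 0 := by linarith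
    rw [h3] at h2
    norm_num at h2
  have lE : ∀ e ∈ E, e.1 ≠ c (p e.1) ∧ e.2 ≠ c (p e.2) := by
    intro e he
    constructor
    · intro h
      have h1 := hS.adj e he
      rw [h] at h1
      exact pE e he (hC.hub _ _ h1).symm
    · intro h
      have h1 := (hS.adj e he).symm
      rw [h] at h1
      exact pE e he (hC.hub _ _ h1)
  set St : Finset (V × V) := (lv p c).image (fun a => (c (p a), a)) with hSt
  have mSt : ∀ q, q ∈ St ↔ q.2 ≠ c (p q.2) ∧ q.1 = c (p q.2) := by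
    intro q
    rw [hSt, Finset.mem_image]
    constructor
    · rintro ⟨a, ha, rfl⟩
      exact ⟨mem_lv.1 ha, rfl⟩
    · rintro ⟨h1, h2⟩
      exact ⟨q.2, mem_lv.2 h1, Prod.ext h2.symm rfl⟩
  have pSt : ∀ q ∈ St, p q.1 = p q.2 := by
    intro q hq
    rw [((mSt q).1 hq).2, hC.pc]
  have dEX : Disjoint E X := by
    rw [Finset.disjoint_left]
    intro q h1 h2
    exact (hX q h2).2.2.2.1 h1
  have dSt : Disjoint St (E ∪ X) := by
    rw [Finset.disjoint_left]
    intro q h1 h2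
    rw [Finset.mem_union] at h2
    rcases h2 with h2 | h2
    · exact pE q h2 (pSt q h1)
    · have h3 := (mSt q).1 h1
      apply (hX q h2).2.1
      rw [pSt q h1]
      exact h3.2
  have hW := qf_ge G f (St ∪ (E ∪ X)) (by
    intro q hq
    rw [Finset.mem_union, Finset.mem_union] at hq
    rcases hq with hq | hq | hq
    · have h3 := (mSt q).1 hq
      rw [h3.2]
      exact hC.star _ h3.1
    · exact hS.adj q hq
    · exact (hX q hq).1) (by
    intro q hq hq'
    rw [Finset.mem_union, Finset.mem_union] at hq hq'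
    rcases hq with hq | hq | hq
    · have h3 := (mSt q).1 hq
      rcases hq' with hq' | hq' | hq'
      · have h4 := (mSt q.swap).1 hq'
        change q.1 ≠ c (p q.1) ∧ q.2 = c (p q.1) at h4
        rw [pSt q hq] at h4
        exact h4.1 h3.2
      · exact pE _ hq' (pSt q hq).symm
      · have h4 := (hX _ hq').2.2.1
        change q.1 ≠ c (p q.1) at h4
        rw [pSt q hq] at h4
        exact h4 h3.2
    · rcases hq' with hq' | hq' | hq'
      · exact pE _ hq (pSt _ hq').symm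
      · exact hS.ori q hq hq'
      · have h4 := (hX _ hq').2.2.2.2.1
        rw [Prod.swap_swap] at h4
        exact h4 hq
    · rcases hq' with hq' | hq' | hq'
      · have h4 := (mSt q.swap).1 hq'
        change q.1 ≠ c (p q.1) ∧ q.2 = c (p q.1) at h4
        have h5 := pSt _ hq'
        change p q.2 = p q.1 at h5
        rw [← h5] at h4
        exact (hX _ hq).2.2.1 h4.2
      · exact (hX _ hq).2.2.2.2.1 hq'
      · exact (hX _ hq).2.2.2.2.2 hq')
  rw [Finset.sum_union dSt, Finset.sum_union dEX] at hW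
  have s1 : ∑ q ∈ St, (f q.1 - f q.2) ^ 2 = ∑ a ∈ lv p c, (f (c (p a)) - f a) ^ 2 := by
    rw [hSt, Finset.sum_image]
    intro a _ b _ hab
    exact (Prod.ext_iff.1 hab).2
  have s2 : ∑ e ∈ E, (f e.1 - f e.2) ^ 2 = ∑ e ∈ E, (wt p A e + r e.1 + r e.2) ^ 2 := by
    refine Finset.sum_congr rfl fun e he => ?_
    rw [fl _ (lE e he).1, fl _ (lE e he).2, hS.alt e he]
    unfold wt
    have h1 := ss (p e.2)
    have h2 : (-(-s (p e.2) * (A (p e.1) + r e.1)) - -(s (p e.2) * (A (p e.2) + r e.2))) ^ 2 =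
      s (p e.2) ^ 2 * (A (p e.1) + A (p e.2) + r e.1 + r e.2) ^ 2 := by ring
    rw [h2, h1, one_mul]
  have s3 : ∑ q ∈ X, (f q.1 - f q.2) ^ 2 =
      ∑ q ∈ X, (s (p q.1) * (A (p q.1) + r q.1) - s (p q.2) * (A (p q.2) + r q.2)) ^ 2 := by
    refine Finset.sum_congr rfl fun q hq => ?_
    rw [fl _ (hX q hq).2.1, fl _ (hX q hq).2.2.1]
    ring
  have s4 : ∑ v, f v ^ 2 = ∑ i, ((μ - 1) ^ 2 * A i ^ 2) + ∑ a ∈ lv p c, (A (p a) + r a) ^ 2 := by
    rw [sum_leaf hC (fun v => f v ^ 2)]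
    congr 1
    · refine Finset.sum_congr rfl fun i _ => ?_
      rw [fc]
      have h1 := ss i
      have h2 : ((μ - 1) * s i * A i) ^ 2 = s i ^ 2 * ((μ - 1) ^ 2 * A i ^ 2) := by ring
      rw [h2, h1, one_mul]
    · refine Finset.sum_congr rfl fun a ha => ?_
      rw [fl _ (mem_lv.1 ha)]
      have h1 := ss (p a)
      have h2 : (-(s (p a) * (A (p a) + r a))) ^ 2 = s (p a) ^ 2 * (A (p a) + r a) ^ 2 := by ring
      rw [h2, h1, one_mul]
  have s5 : ∑ a ∈ lv p c, (f (c (p a)) - f a) ^ 2 =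
      ∑ a ∈ lv p c, (μ * A (p a) + r a) ^ 2 := by
    refine Finset.sum_congr rfl fun a ha => ?_
    rw [fl _ (mem_lv.1 ha), fc]
    have h1 := ss (p a)
    have h2 : ((μ - 1) * s (p a) * A (p a) - -(s (p a) * (A (p a) + r a))) ^ 2 =
      s (p a) ^ 2 * (μ * A (p a) + r a) ^ 2 := by ring
    rw [h2, h1, one_mul]
  have s6 : ∑ a ∈ lv p c, (μ * A (p a) + r a) ^ 2 - μ * ∑ a ∈ lv p c, (A (p a) + r a) ^ 2 =
      μ * (μ - 1) * (((m : ℝ) - 1) * ∑ i, A i ^ 2) - (μ - 1) * ∑ a ∈ lv p c, r a ^ 2 := by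
    rw [← sum_p hC (fun i => A i ^ 2), Finset.mul_sum, Finset.mul_sum, Finset.mul_sum,
      ← Finset.sum_sub_distrib, ← Finset.sum_sub_distrib]
    refine Finset.sum_congr rfl fun a _ => ?_
    ring
  have s7 : ∑ a ∈ lv p c, r a ^ 2 ≤ ∑ a, r a ^ 2 :=
    Finset.sum_le_sum_of_subset_of_nonneg (Finset.subset_univ _) (fun a _ _ => sq_nonneg _)
  have hu := hU f
  rw [s1, s2, s3, s5] at hW
  rw [s4, ← Finset.mul_sum] at hu
  have s8 : (μ - 1) * ∑ a ∈ lv p c, r a ^ 2 ≤ (μ - 1) * ∑ a, r a ^ 2 :=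
    mul_le_mul_of_nonneg_left s7 (by linarith)
  nlinarith [hW, hu, s6, s8]

/-- the squares of the weights of the edges at `a` -/
noncomputable def tq {g : ℕ} (p : V → Fin g) (E : Finset (V × V)) (A : Fin g → ℝ) (a : V) : ℝ :=
  ∑ e ∈ E.filter (fun e => e.1 = a ∨ e.2 = a), wt p A e ^ 2

theorem tq_nonneg {g : ℕ} (p : V → Fin g) (E : Finset (V × V)) (A : Fin g → ℝ) (a : V) :
    0 ≤ tq p E A a := Finset.sum_nonneg fun e _ => sq_nonneg _

theorem sum_tq {g : ℕ} (p : V → Fin g) (E : Finset (V × V)) (A : Fin g → ℝ)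
    (hne : ∀ e ∈ E, e.1 ≠ e.2) : ∑ a, tq p E A a = 2 * ∑ e ∈ E, wt p A e ^ 2 := by
  have h1 : ∀ a, tq p E A a = ∑ e ∈ E, if e.1 = a ∨ e.2 = a then wt p A e ^ 2 else 0 := by
    intro a
    unfold tq
    rw [Finset.sum_filter]
  simp only [h1]
  rw [Finset.sum_comm, Finset.mul_sum]
  refine Finset.sum_congr rfl fun e he => ?_
  rw [← Finset.sum_filter, Finset.sum_const]
  have h2 : univ.filter (fun a => e.1 = a ∨ e.2 = a) = {e.1, e.2} := by
    ext a
    rw [Finset.mem_filter, Finset.mem_insert, Finset.mem_singleton]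
    constructor
    · rintro ⟨_, h | h⟩
      · exact Or.inl h.symm
      · exact Or.inr h.symm
    · rintro (h | h)
      · exact ⟨Finset.mem_univ _, Or.inl h.symm⟩
      · exact ⟨Finset.mem_univ _, Or.inr h.symm⟩
  rw [h2, Finset.card_pair (hne e he), nsmul_eq_mul]
  norm_num

theorem pf_LBE : T_LBE := by
  intro V _ G g m p c E A s μ hC hm hS hμ hU hA heq
  have hμ1 : (0 : ℝ) < μ - 1 := by linarith
  have hμ3 : (0 : ℝ) < μ - 3 := by linarith
  have pE : ∀ e ∈ E, p e.1 ≠ p e.2 := by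
    intro e he h
    have h1 := hS.alt e he
    rw [h] at h1
    have h3 : s (p e.2) = 0 := by linarith
    rcases hS.sg (p e.2) with h2 | h2 <;> rw [h3] at h2 <;> norm_num at h2
  have neE : ∀ e ∈ E, e.1 ≠ e.2 := fun e he h => pE e he (by rw [h])
  have wpos : ∀ e : V × V, 0 < wt p A e := fun e => by
    unfold wt
    linarith [hA (p e.1), hA (p e.2)]
  set r : V → ℝ := fun a => Real.sqrt (tq p E A a) / (μ - 3) with hr
  have r2 : ∀ a, r a ^ 2 = tq p E A a / (μ - 3) ^ 2 := by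
    intro a
    rw [hr]
    show (Real.sqrt (tq p E A a) / (μ - 3)) ^ 2 = _
    rw [div_pow, Real.sq_sqrt (tq_nonneg p E A a)]
  have sumr : ∑ a, r a ^ 2 = 2 * (∑ e ∈ E, wt p A e ^ 2) / (μ - 3) ^ 2 := by
    rw [Finset.sum_congr rfl (fun a _ => r2 a), ← Finset.sum_div, sum_tq p E A neE]
  have rge : ∀ e ∈ E, ∀ a, (e.1 = a ∨ e.2 = a) → wt p A e / (μ - 3) ≤ r a := by
    intro e he a ha
    rw [hr]
    show _ ≤ Real.sqrt (tq p E A a) / (μ - 3)
    apply div_le_div_of_nonneg_right _ hμ3.le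
    apply Real.le_sqrt_of_sq_le
    unfold tq
    exact Finset.single_le_sum (f := fun e => wt p A e ^ 2) (fun e _ => sq_nonneg _)
      (Finset.mem_filter.2 ⟨he, ha⟩)
  set S := ∑ e ∈ E, wt p A e ^ 2 with hSdef
  -- the main inequality
  have main : ∀ X : Finset (V × V), (∀ q ∈ X, G.Adj q.1 q.2 ∧ q.1 ≠ c (p q.1) ∧
      q.2 ≠ c (p q.2) ∧ q ∉ E ∧ q.swap ∉ E ∧ q.swap ∉ X) →
      ∑ e ∈ E, ((wt p A e + r e.1 + r e.2) ^ 2 - ((μ - 1) / (μ - 3)) ^ 2 * wt p A e ^ 2) +
      ∑ q ∈ X, (s (p q.1) * (A (p q.1) + r q.1) - s (p q.2) * (A (p q.2) + r q.2)) ^ 2 ≤ 0 := by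
    intro X hX
    have h1 := gen hC hS (by linarith) hU r X hX
    rw [sumr] at h1
    rw [Finset.sum_sub_distrib, ← Finset.mul_sum, ← hSdef]
    have h2 : μ * (μ - 1) * (μ - m) * ∑ i, A i ^ 2 ≤ (μ - 1) / (μ - 3) * S := by
      have h3 : μ * (μ - 1) * (μ - m) * ∑ i, A i ^ 2 =
          (μ - 1) / (μ - 3) * (μ * (μ - 3) * (μ - m) * ∑ i, A i ^ 2) := by
        field_simp
      rw [h3]
      exact mul_le_mul_of_nonneg_left heq (by positivity)
    have h4 : ((μ - 1) / (μ - 3)) ^ 2 * S =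
        (μ - 1) / (μ - 3) * S + (μ - 1) * (2 * S / (μ - 3) ^ 2) := by
      field_simp
      ring
    rw [h4]
    linarith
  -- each term is nonnegative
  have term : ∀ e ∈ E, 0 ≤ (wt p A e + r e.1 + r e.2) ^ 2 -
      ((μ - 1) / (μ - 3)) ^ 2 * wt p A e ^ 2 := by
    intro e he
    have h1 := rge e he e.1 (Or.inl rfl)
    have h2 := rge e he e.2 (Or.inr rfl)
    have h3 : (μ - 1) / (μ - 3) * wt p A e ≤ wt p A e + r e.1 + r e.2 := by
      have h4 : (μ - 1) / (μ - 3) * wt p A e =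
          wt p A e + wt p A e / (μ - 3) + wt p A e / (μ - 3) := by
        field_simp
        ring
      rw [h4]
      linarith
    have h5 : 0 ≤ (μ - 1) / (μ - 3) * wt p A e := by
      have := (wpos e).le
      positivity
    have h6 := pow_le_pow_left₀ h5 h3 2
    rw [mul_pow] at h6
    linarith
  have zero : ∀ e ∈ E, (wt p A e + r e.1 + r e.2) ^ 2 -
      ((μ - 1) / (μ - 3)) ^ 2 * wt p A e ^ 2 = 0 := by
    have h1 := main ∅ (fun q hq => absurd hq (Finset.notMem_empty q))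
    rw [Finset.sum_empty, add_zero] at h1
    have h2 := le_antisymm h1 (Finset.sum_nonneg term)
    exact (Finset.sum_eq_zero_iff_of_nonneg term).1 h2
  have req : ∀ e ∈ E, r e.1 = wt p A e / (μ - 3) ∧ r e.2 = wt p A e / (μ - 3) := by
    intro e he
    have h1 := rge e he e.1 (Or.inl rfl)
    have h2 := rge e he e.2 (Or.inr rfl)
    have h3 := zero e he
    have h4 : (μ - 1) / (μ - 3) * wt p A e =
        wt p A e + wt p A e / (μ - 3) + wt p A e / (μ - 3) := by
      field_simp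
      ring
    have h5 : 0 ≤ (μ - 1) / (μ - 3) * wt p A e := by
      have := (wpos e).le
      positivity
    have h6 : wt p A e + r e.1 + r e.2 = (μ - 1) / (μ - 3) * wt p A e := by
      have h7 : (wt p A e + r e.1 + r e.2) ^ 2 = ((μ - 1) / (μ - 3) * wt p A e) ^ 2 := by
        rw [mul_pow]
        linarith
      have h8 : 0 ≤ wt p A e + r e.1 + r e.2 := by
        rw [h4] at h5
        linarith
      exact (pow_left_inj₀ h8 h5 (by norm_num)).1 h7
    constructor <;> linarith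
  have tqe : ∀ e ∈ E, ∀ a, (e.1 = a ∨ e.2 = a) → tq p E A a = wt p A e ^ 2 := by
    intro e he a ha
    have h1 : r a = wt p A e / (μ - 3) := by
      rcases ha with rfl | rfl
      · exact (req e he).1
      · exact (req e he).2
    have h2 := r2 a
    rw [h1, div_pow] at h2
    have h3 : (μ - 3) ^ 2 ≠ 0 := by positivity
    exact ((div_left_inj' h3).1 h2).symm
  have uniq : ∀ e ∈ E, ∀ e' ∈ E, ∀ a, (e.1 = a ∨ e.2 = a) → (e'.1 = a ∨ e'.2 = a) → e = e' := by
    intro e he e' he' a ha ha'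
    by_contra hne
    have h1 := tqe e he a ha
    have h2 : wt p A e ^ 2 + wt p A e' ^ 2 ≤ tq p E A a := by
      unfold tq
      have h3 : ({e, e'} : Finset (V × V)) ⊆ E.filter (fun e => e.1 = a ∨ e.2 = a) := by
        intro q hq
        rw [Finset.mem_insert, Finset.mem_singleton] at hq
        rcases hq with rfl | rfl
        · exact Finset.mem_filter.2 ⟨he, ha⟩
        · exact Finset.mem_filter.2 ⟨he', ha'⟩
      have h4 := Finset.sum_le_sum_of_subset_of_nonneg (f := fun e => wt p A e ^ 2) h3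
        (fun q _ _ => sq_nonneg _)
      rw [Finset.sum_pair hne] at h4
      exact h4
    have h5 := wpos e'
    have h6 : 0 < wt p A e' ^ 2 := by positivity
    linarith
  have rload : ∀ a, r a = load p E A a / (μ - 3) := by
    intro a
    by_cases h : ∃ e ∈ E, e.1 = a ∨ e.2 = a
    · obtain ⟨e, he, ha⟩ := h
      have h1 : E.filter (fun e => e.1 = a ∨ e.2 = a) = {e} := by
        ext q
        rw [Finset.mem_filter, Finset.mem_singleton]
        constructor
        · rintro ⟨h2, h3⟩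
          exact uniq q h2 e he a h3 ha
        · rintro rfl
          exact ⟨he, ha⟩
      have h2 : load p E A a = wt p A e := by
        unfold load
        rw [h1, Finset.sum_singleton]
      rw [h2]
      rcases ha with rfl | rfl
      · exact (req e he).1
      · exact (req e he).2
    · have h1 : E.filter (fun e => e.1 = a ∨ e.2 = a) = ∅ := by
        rw [Finset.filter_eq_empty_iff]
        intro e he ha
        exact h ⟨e, he, ha⟩
      have h2 : load p E A a = 0 := by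
        unfold load
        rw [h1, Finset.sum_empty]
      have h3 : tq p E A a = 0 := by
        unfold tq
        rw [h1, Finset.sum_empty]
      rw [h2, hr]
      show Real.sqrt (tq p E A a) / (μ - 3) = _
      rw [h3, Real.sqrt_zero]
  refine ⟨?_, ?_⟩
  · intro e he e' he' hne
    refine ⟨fun h => ?_, fun h => ?_, fun h => ?_⟩
    · exact hne (uniq e he e' he' e.1 (Or.inl rfl) (Or.inl h.symm))
    · exact hne (uniq e he e' he' e.1 (Or.inl rfl) (Or.inr h.symm))
    · exact hne (uniq e he e' he' e.2 (Or.inr rfl) (Or.inr h.symm))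
  · intro a b hab h1 h2 ha hb
    have h3 := main {(a, b)} (by
      intro q hq
      rw [Finset.mem_singleton] at hq
      subst hq
      refine ⟨hab, ha, hb, h1, h2, ?_⟩
      rw [Finset.mem_singleton]
      intro h
      exact hab.ne ((Prod.ext_iff.1 h).2))
    rw [Finset.sum_eq_zero zero, zero_add, Finset.sum_singleton] at h3
    have h4 : s (p a) * (A (p a) + r a) - s (p b) * (A (p b) + r b) = 0 :=
      pow_eq_zero_iff (n := 2) (by norm_num) |>.1 (le_antisymm h3 (sq_nonneg _))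
    rw [rload a, rload b] at h4
    linarith

end Pool.Agent.H35.LD
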